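import Mathlib

/-!
# Counting cliques above a clique
-/

set_option autoImplicit false

namespace Pool.Agent.FNS

open Finset

variable {V : Type*} [Fintype V] [DecidableEq V] (G : SimpleGraph V) [DecidableRel G.Adj]

/-- The number of cliques with `k` vertices which contain `s`. -/
def above (k : ℕ) (s : Finset V) : ℕ := ((G.cliqueFinset k).filter (fun t => s ⊆ t)).card

/-- The vertices adjacent to every vertex of `s`. -/
def cn (s : Finset V) : Finset V := univ.filter (fun x => ∀ y ∈ s, G.Adj x y)

variable {G}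

theorem mem_cn {s : Finset V} {x : V} : x ∈ cn G s ↔ ∀ y ∈ s, G.Adj x y := by
  simp [cn]

omit [Fintype V] [DecidableEq V] [DecidableRel G.Adj] in
theorem clique_sub {s t : Finset V} (ht : G.IsClique (t : Set V)) (h : s ⊆ t) :
    G.IsClique (s : Set V) :=
  ht.subset (by exact_mod_cast h)

theorem insert_clique {s : Finset V} {n : ℕ} (hs : G.IsNClique n s) {x : V} (hx : x ∈ cn G s) :
    G.IsNClique (n + 1) (insert x s) :=
  hs.insert (fun b hb => mem_cn.1 hx b hb)

theorem cn_notMem {s : Finset V} {x : V} (hx : x ∈ cn G s) : x ∉ s :=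
  fun h => (G.irrefl (mem_cn.1 hx x h))

/-- Cliques with one more vertex, reindexed by the new vertex. -/
theorem sum_above_succ {s : Finset V} {n : ℕ} (hs : G.IsNClique n s) (g : Finset V → ℕ) :
    ∑ t ∈ (G.cliqueFinset (n + 1)).filter (fun t => s ⊆ t), g t = ∑ x ∈ cn G s, g (insert x s) := by
  symm
  refine Finset.sum_bij (fun x _ => insert x s) ?_ ?_ ?_ ?_
  · intro x hx
    simp only [mem_filter, SimpleGraph.mem_cliqueFinset_iff]
    exact ⟨insert_clique hs hx, subset_insert x s⟩
  · intro x hx y hy h
    have h1 : x ∈ insert y s := by rw [← h]; exact mem_insert_self x s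
    rcases mem_insert.1 h1 with h2 | h2
    · exact h2
    · exact absurd h2 (cn_notMem hx)
  · intro t ht
    simp only [mem_filter, SimpleGraph.mem_cliqueFinset_iff] at ht
    obtain ⟨htc, hst⟩ := ht
    have hcard : (t \ s).card = 1 := by
      rw [card_sdiff_of_subset hst, htc.card_eq, hs.card_eq]; omega
    obtain ⟨x, hx⟩ := card_eq_one.1 hcard
    have hxt : x ∈ t \ s := by rw [hx]; exact mem_singleton_self x
    rw [mem_sdiff] at hxt
    have hins : insert x s = t := by
      rw [insert_eq, ← hx, sdiff_union_of_subset hst]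
    refine ⟨x, ?_, hins⟩
    rw [mem_cn]
    intro y hy
    exact htc.isClique (by exact_mod_cast hxt.1) (by exact_mod_cast hst hy)
      (fun h => hxt.2 (h ▸ hy))
  · intro x _
    rfl

theorem above_succ {s : Finset V} {n : ℕ} (hs : G.IsNClique n s) :
    above G (n + 1) s = (cn G s).card := by
  have h := sum_above_succ hs (fun _ => 1)
  simpa [above] using h

theorem card_between (s t' : Finset V) (hst : s ⊆ t') (j : ℕ) (hj : s.card ≤ j) :
    ((t'.powersetCard j).filter (fun t => s ⊆ t)).card
      = (t'.card - s.card).choose (j - s.card) := by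
  rw [← card_sdiff_of_subset hst, ← card_powersetCard]
  refine Finset.card_bij (fun t _ => t \ s) ?_ ?_ ?_
  · intro t ht
    simp only [mem_filter, mem_powersetCard] at ht ⊢
    refine ⟨sdiff_subset_sdiff ht.1.1 (Subset.refl s), ?_⟩
    rw [card_sdiff_of_subset ht.2, ht.1.2]
  · intro t ht u hu h
    simp only [mem_filter, mem_powersetCard] at ht hu
    rw [← sdiff_union_of_subset ht.2, ← sdiff_union_of_subset hu.2]
    have h' : t \ s = u \ s := h
    rw [h']
  · intro u hu
    simp only [mem_powersetCard] at hu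
    have hdis : Disjoint u s := by
      rw [disjoint_left]
      intro a ha has
      exact (mem_sdiff.1 (hu.1 ha)).2 has
    refine ⟨u ∪ s, ?_, ?_⟩
    · simp only [mem_filter, mem_powersetCard]
      refine ⟨⟨union_subset (hu.1.trans sdiff_subset) hst, ?_⟩, subset_union_right⟩
      rw [card_union_of_disjoint hdis, hu.2]; omega
    · change (u ∪ s) \ s = u
      rw [union_sdiff_right, sdiff_eq_self_of_disjoint hdis]

/-- Double counting of pairs of nested cliques above `s`. -/
theorem sum_above (s : Finset V) (j k : ℕ) (hj : s.card ≤ j) :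
    ∑ t ∈ (G.cliqueFinset j).filter (fun t => s ⊆ t), above G k t
      = (k - s.card).choose (j - s.card) * above G k s := by
  have h := Finset.sum_card_bipartiteAbove_eq_sum_card_bipartiteBelow
    (s := (G.cliqueFinset j).filter (fun t => s ⊆ t))
    (t := (G.cliqueFinset k).filter (fun t => s ⊆ t)) (fun t t' : Finset V => t ⊆ t')
  have h1 : ∑ t ∈ (G.cliqueFinset j).filter (fun t => s ⊆ t), above G k t
      = ∑ a ∈ (G.cliqueFinset j).filter (fun t => s ⊆ t),
        (bipartiteAbove (fun t t' : Finset V => t ⊆ t')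
          ((G.cliqueFinset k).filter (fun t => s ⊆ t)) a).card := by
    refine sum_congr rfl fun t ht => ?_
    unfold above bipartiteAbove
    congr 1
    ext u
    simp only [mem_filter]
    constructor
    · rintro ⟨h1, h2⟩
      exact ⟨⟨h1, (mem_filter.1 ht).2.trans h2⟩, h2⟩
    · rintro ⟨⟨h1, _⟩, h2⟩
      exact ⟨h1, h2⟩
  rw [h1, h]
  have h2 : ∀ b ∈ (G.cliqueFinset k).filter (fun t => s ⊆ t),
      (bipartiteBelow (fun t t' : Finset V => t ⊆ t')
        ((G.cliqueFinset j).filter (fun t => s ⊆ t)) b).card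
        = (k - s.card).choose (j - s.card) := by
    intro b hb
    simp only [mem_filter, SimpleGraph.mem_cliqueFinset_iff] at hb
    rw [← hb.1.card_eq, ← card_between s b hb.2 j hj]
    unfold bipartiteBelow
    congr 1
    ext t
    simp only [mem_filter, mem_powersetCard, SimpleGraph.mem_cliqueFinset_iff]
    constructor
    · rintro ⟨⟨h1, h2⟩, h3⟩
      exact ⟨⟨h3, h1.card_eq⟩, h2⟩
    · rintro ⟨⟨h1, h2⟩, h3⟩
      exact ⟨⟨⟨clique_sub hb.1.isClique h1, h2⟩, h3⟩, h1⟩
  rw [sum_congr rfl h2, sum_const, smul_eq_mul, mul_comm]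
  rfl

theorem above_self {s : Finset V} {n : ℕ} (hs : G.IsNClique n s) : above G n s = 1 := by
  unfold above
  rw [card_eq_one]
  refine ⟨s, ?_⟩
  ext t
  simp only [mem_filter, mem_singleton, SimpleGraph.mem_cliqueFinset_iff]
  constructor
  · rintro ⟨h1, h2⟩
    exact (eq_of_subset_of_card_le h2 (by rw [h1.card_eq, hs.card_eq])).symm
  · rintro rfl
    exact ⟨hs, Subset.refl _⟩

theorem above_empty (k : ℕ) : above G k ∅ = (G.cliqueFinset k).card := by
  simp [above]

end Pool.Agent.FNS
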