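import Pool.Agent.FNS.Vertex

/-!
# Every vertex has degree at least 45
-/

set_option autoImplicit false

namespace Pool.Agent.FNS

open Finset

variable {V : Type*} [Fintype V] [DecidableEq V] {G : SimpleGraph V} [DecidableRel G.Adj]

section deg

variable (h6 : G.CliqueFree 6) (hsq : NoSquare G)
    (h45 : ∀ s, G.IsNClique 4 s → above G 5 s = 2)
    (hpure : ∀ s : Finset V, G.IsClique (s : Set V) → ∃ t, G.IsNClique 5 t ∧ s ⊆ t)
    (hedge : ∀ s, G.IsNClique 2 s → above G 3 s + above G 5 s = above G 4 s + 2)

/-- The vertices of the link of `v` seen from `x` but not from `u`. -/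
def far (G : SimpleGraph V) [DecidableRel G.Adj] (v u x : V) : Finset V :=
  (cn G {v}).filter (fun w => G.Adj x w ∧ w ≠ u ∧ ¬ G.Adj u w)

/-- The vertices of the link of `v` seen from `x` and `y` but not from `u`. -/
def far2 (G : SimpleGraph V) [DecidableRel G.Adj] (v u x y : V) : Finset V :=
  (cn G {v}).filter (fun w => G.Adj y w ∧ G.Adj x w ∧ w ≠ u ∧ ¬ G.Adj u w)

theorem split_far {v u : V} (hu : u ∈ cn G {v}) {x : V} (hx : x ∈ cn G (insert u {v})) :
    above G 3 (insert x {v}) = 1 + above G 4 (insert x (insert u {v})) + (far G v u x).card := by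
  have hv := single (G := G) v
  have he := insert_clique hv hu
  have hx' := hx
  rw [cn_insert, mem_filter] at hx'
  have hxv := insert_clique hv hx'.1
  rw [above_succ hxv, cn_insert, above_succ (insert_clique he hx)]
  have hs := card_split (G := G) ((cn G {v}).filter (fun y => G.Adj x y)) u
    (by rw [mem_filter]; exact ⟨hu, hx'.2.symm⟩)
  have e1 : ((cn G {v}).filter (fun y => G.Adj x y)).filter (fun y => G.Adj u y)
      = cn G (insert x (insert u {v})) := by
    rw [cn_insert, cn_insert]
    ext y
    simp only [mem_filter]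
    tauto
  have e2 : ((cn G {v}).filter (fun y => G.Adj x y)).filter (fun w => w ≠ u ∧ ¬ G.Adj u w)
      = far G v u x := by
    ext y
    simp only [far, mem_filter]
    tauto
  rw [e1, e2] at hs
  exact hs

include h45 in
theorem split_far2 {v u : V} (hu : u ∈ cn G {v}) {x : V} (hx : x ∈ cn G (insert u {v}))
    {y : V} (hy : y ∈ cn G (insert x (insert u {v}))) :
    above G 4 (insert y (insert x {v})) = 3 + (far2 G v u x y).card := by
  have hv := single (G := G) v
  have he := insert_clique hv hu
  have hx' := hx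
  rw [cn_insert, mem_filter] at hx'
  have hxv := insert_clique hv hx'.1
  have hy' := hy
  rw [cn_insert, cn_insert, mem_filter, mem_filter] at hy'
  have hyxv : y ∈ cn G (insert x {v}) := by rw [cn_insert, mem_filter]; exact ⟨hy'.1.1, hy'.2⟩
  have h3 := insert_clique hxv hyxv
  have h4 := insert_clique (insert_clique he hx) hy
  have h2 := h45 _ h4
  rw [above_succ h4] at h2
  rw [above_succ h3]
  have huX : u ∈ cn G (insert y (insert x {v})) := by
    rw [cn_insert, cn_insert, mem_filter, mem_filter]
    exact ⟨⟨hu, hx'.2.symm⟩, hy'.1.2.symm⟩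
  have hs := card_split (G := G) (cn G (insert y (insert x {v}))) u huX
  have e1 : (cn G (insert y (insert x {v}))).filter (fun y => G.Adj u y)
      = cn G (insert y (insert x (insert u {v}))) := by
    rw [cn_insert, cn_insert, cn_insert, cn_insert, cn_insert]
    ext y
    simp only [mem_filter]
    tauto
  have e2 : (cn G (insert y (insert x {v}))).filter (fun w => w ≠ u ∧ ¬ G.Adj u w)
      = far2 G v u x y := by
    rw [cn_insert, cn_insert]
    ext y
    simp only [far2, mem_filter]
    tauto
  rw [e1, e2, h2] at hs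
  omega

/-- Pairs of common neighbours. -/
theorem pairs_eq (hsq : NoSquare G) {v u : V} (hu : u ∈ cn G {v}) :
    ∑ x ∈ cn G (insert u {v}), ∑ y ∈ cn G (insert x (insert u {v})), (far2 G v u x y).card
      = ∑ w ∈ (cn G {v}).filter (fun w => w ≠ u ∧ ¬ G.Adj u w),
        (com G {v} u w).card * ((com G {v} u w).card - 1) := by
  have hv := single (G := G) v
  have step1 : ∀ x ∈ cn G (insert u {v}),
      ∑ y ∈ cn G (insert x (insert u {v})), (far2 G v u x y).card
        = ∑ w ∈ far G v u x, ((com G {v} u w).card - 1) := by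
    intro x hx
    rw [cn_insert, mem_filter] at hx
    have h1 := Finset.sum_card_bipartiteAbove_eq_sum_card_bipartiteBelow
      (s := cn G (insert x (insert u {v}))) (t := far G v u x) (fun y w => G.Adj y w)
    have h2 : ∀ y ∈ cn G (insert x (insert u {v})), (far2 G v u x y).card
        = (bipartiteAbove (fun y w => G.Adj y w) (far G v u x) y).card := by
      intro y _
      congr 1
      ext w
      simp only [far2, far, bipartiteAbove, mem_filter]
      tauto
    rw [sum_congr rfl h2, h1]
    refine sum_congr rfl fun w hw => ?_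
    rw [far, mem_filter] at hw
    have hcl := common_clique hsq hv hu hw.2.2.1 hw.2.2.2
    have hxc : x ∈ com G {v} u w := by
      rw [com, mem_filter]; exact ⟨hx.1, hx.2, hw.2.1⟩
    rw [← card_erase_of_mem hxc]
    congr 1
    ext y
    simp only [bipartiteBelow, mem_filter, mem_erase, cn_insert]
    constructor
    · rintro ⟨⟨⟨h1, h2⟩, h3⟩, h4⟩
      refine ⟨fun h => G.irrefl (h ▸ h3), ?_⟩
      rw [com, mem_filter]
      exact ⟨h1, h2, h4⟩
    · rintro ⟨h1, h2⟩
      have h3 : G.Adj x y := hcl.isClique (by exact_mod_cast mem_union_left _ hxc)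
        (by exact_mod_cast mem_union_left _ h2) h1.symm
      rw [com, mem_filter] at h2
      exact ⟨⟨⟨h2.1, h2.2.1⟩, h3⟩, h2.2.2⟩
  rw [sum_congr rfl step1]
  rw [Finset.sum_comm' (t' := (cn G {v}).filter (fun w => w ≠ u ∧ ¬ G.Adj u w))
    (s' := fun w => com G {v} u w)]
  · refine sum_congr rfl fun w _ => ?_
    rw [sum_const, smul_eq_mul]
  · intro x w
    simp only [far, com, cn_insert, mem_filter]
    tauto

include h6 hsq h45 hpure hedge in
/-- The local inequality at `x`. -/
theorem local_ineq {v u : V} (hu : u ∈ cn G {v}) {x : V} (hx : x ∈ cn G (insert u {v})) :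
    (∑ y ∈ cn G (insert x (insert u {v})), (far2 G v u x y).card) + 11
      ≤ 3 * above G 4 (insert x (insert u {v})) + (far G v u x).card ∧
    2 * above G 4 (insert x (insert u {v}))
      ≤ ∑ y ∈ cn G (insert x (insert u {v})), (far2 G v u x y).card := by
  have hv := single (G := G) v
  have hp3 : ∀ s, G.IsNClique 3 s → (cn G s).Nonempty := fun s hs => cn_nonempty hpure hs (by omega)
  have he := insert_clique hv hu
  have hsf := split_far hu hx
  have hx' := hx
  rw [cn_insert, mem_filter] at hx'
  have hxv := insert_clique hv hx'.1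
  have hxe := insert_clique he hx
  have h12x := twelve_le h6 hsq h45 hp3 hedge hxv
  have hall : ∑ y ∈ cn G (insert x {v}), above G 4 (insert y (insert x {v}))
      = 2 * above G 4 (insert x {v}) := sum_cn hxv
  have hYsub : cn G (insert x (insert u {v})) ⊆ cn G (insert x {v}) := by
    intro y hy
    rw [cn_insert, cn_insert, mem_filter, mem_filter] at hy
    rw [cn_insert, mem_filter]
    exact ⟨hy.1.1, hy.2⟩
  have hYc : (cn G (insert x (insert u {v}))).card = above G 4 (insert x (insert u {v})) :=
    (above_succ hxe).symm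
  have hAc : (cn G (insert x {v})).card = above G 3 (insert x {v}) := (above_succ hxv).symm
  have hge5 : ∀ y ∈ cn G (insert x {v}), 5 ≤ above G 4 (insert y (insert x {v})) := by
    intro y hy
    have h3 := insert_clique hxv hy
    rw [above_succ h3]
    exact five_le h6 hsq h45 hp3 h3
  have hsd := sum_sdiff (f := fun y => above G 4 (insert y (insert x {v}))) hYsub
  have hsd5 : 5 * ((cn G (insert x {v})) \ (cn G (insert x (insert u {v})))).card
      ≤ ∑ y ∈ (cn G (insert x {v})) \ (cn G (insert x (insert u {v}))),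
        above G 4 (insert y (insert x {v})) := by
    rw [mul_comm, ← smul_eq_mul, ← sum_const]
    exact sum_le_sum fun y hy => hge5 y (mem_sdiff.1 hy).1
  rw [card_sdiff_of_subset hYsub, hYc, hAc] at hsd5
  have hYle : above G 4 (insert x (insert u {v})) ≤ above G 3 (insert x {v}) := by
    rw [← hYc, ← hAc]; exact card_le_card hYsub
  have hYsum : ∑ y ∈ cn G (insert x (insert u {v})), above G 4 (insert y (insert x {v}))
      = 3 * above G 4 (insert x (insert u {v}))
        + ∑ y ∈ cn G (insert x (insert u {v})), (far2 G v u x y).card := by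
    rw [sum_congr rfl (fun y hy => split_far2 h45 hu hx hy), sum_add_distrib, sum_const,
      smul_eq_mul, hYc, mul_comm]
  have hYge : 5 * above G 4 (insert x (insert u {v}))
      ≤ ∑ y ∈ cn G (insert x (insert u {v})), above G 4 (insert y (insert x {v})) := by
    rw [← hYc, mul_comm, ← smul_eq_mul, ← sum_const]
    exact sum_le_sum fun y hy => hge5 y (hYsub hy)
  constructor
  · omega
  · omega

include h6 hsq h45 in
/-- Inclusion and exclusion in the link of `v`, seen from `u`. -/
theorem local_incl {v u : V} (hu : u ∈ cn G {v}) :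
    2 * ∑ x ∈ cn G (insert u {v}), (far G v u x).card + 2 * above G 5 (insert u {v})
      ≤ 2 * ((cn G {v}).filter (fun w => w ≠ u ∧ ¬ G.Adj u w)).card
        + ∑ x ∈ cn G (insert u {v}), ∑ y ∈ cn G (insert x (insert u {v})),
          (far2 G v u x y).card := by
  have hv := single (G := G) v
  have hpaths := paths_eq (G := G) (cn G {v}) u
  have hL : (cn G {v}).filter (fun x => G.Adj u x) = cn G (insert u {v}) := (cn_insert _ _).symm
  rw [hL] at hpaths
  have hpairs := pairs_eq hsq hu
  have hthree := three_count h6 hsq h45 hv hu (by omega)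
  have hfar : ∑ x ∈ cn G (insert u {v}), (far G v u x).card
      = ∑ w ∈ (cn G {v}).filter (fun w => w ≠ u ∧ ¬ G.Adj u w), (com G {v} u w).card := hpaths
  rw [hfar, hpairs]
  have hincl : ∑ w ∈ (cn G {v}).filter (fun w => w ≠ u ∧ ¬ G.Adj u w),
        (2 * (com G {v} u w).card + 2 * (if (com G {v} u w).card = 3 then 1 else 0))
      ≤ ∑ w ∈ (cn G {v}).filter (fun w => w ≠ u ∧ ¬ G.Adj u w),
        (2 + (com G {v} u w).card * ((com G {v} u w).card - 1)) := by
    refine sum_le_sum fun w hw => ?_
    rw [mem_filter] at hw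
    have hle := common_le h6 hsq hv hu hw.2.1 hw.2.2
    have : (com G {v} u w).card ≤ 3 := by omega
    interval_cases h : (com G {v} u w).card <;> simp
  rw [sum_add_distrib, sum_add_distrib, ← mul_sum, ← mul_sum, sum_const, smul_eq_mul,
    ← card_filter, filter_filter] at hincl
  have h41 : 4 - 1 = 3 := by norm_num
  rw [h41] at hthree
  omega

include h6 hsq h45 hpure hedge in
theorem degree_ge (v : V) : 45 ≤ above G 2 {v} := by
  have hv := single (G := G) v
  have hp3 : ∀ s, G.IsNClique 3 s → (cn G s).Nonempty := fun s hs => cn_nonempty hpure hs (by omega)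
  obtain ⟨u, hu⟩ := cn_nonempty hpure hv (by omega)
  have he := insert_clique hv hu
  have h12 := twelve_le h6 hsq h45 hp3 hedge he
  have h45e := edge45 h45 he
  have hsplit := card_split (G := G) (cn G {v}) u hu
  have hL : (cn G {v}).filter (fun x => G.Adj u x) = cn G (insert u {v}) := (cn_insert _ _).symm
  rw [hL] at hsplit
  have hLc : (cn G (insert u {v})).card = above G 3 (insert u {v}) := (above_succ he).symm
  have hsum : ∑ x ∈ cn G (insert u {v}), above G 4 (insert x (insert u {v}))
      = 2 * above G 4 (insert u {v}) := sum_cn he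
  have hincl := local_incl h6 hsq h45 hu
  have hsx1 := sum_le_sum fun x h => (local_ineq h6 hsq h45 hpure hedge hu (x := x) h).1
  have hsx2 := sum_le_sum fun x h => (local_ineq h6 hsq h45 hpure hedge hu (x := x) h).2
  rw [sum_add_distrib, sum_add_distrib, sum_const, smul_eq_mul, hLc, ← mul_sum, hsum] at hsx1
  rw [← mul_sum, hsum] at hsx2
  rw [above_succ hv, hsplit, hLc]
  omega

/-- The vertices which are not adjacent to `v`. -/
def away (G : SimpleGraph V) [DecidableRel G.Adj] (v : V) : Finset V :=
  univ.filter (fun w => w ≠ v ∧ ¬ G.Adj v w)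

theorem away_split (v : V) : Fintype.card V = 1 + above G 2 {v} + (away G v).card := by
  have h := card_split (G := G) (univ : Finset V) v (mem_univ v)
  have hL : univ.filter (fun x => G.Adj v x) = cn G {v} := by
    ext x; simp [mem_cn, G.adj_comm]
  rw [hL, ← above_succ (single v)] at h
  exact h

theorem mem_cn_symm {v x : V} : x ∈ cn G {v} ↔ G.Adj x v := by simp [mem_cn]

/-- The vertices adjacent to `x` which are not adjacent to `v`. -/
theorem com_erase {v x w : V} (hx : x ∈ com G ∅ v w) (hcl : ∃ n, G.IsNClique n (com G ∅ v w)) :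
    com G {x} v w = (com G ∅ v w).erase x := by
  obtain ⟨n, hcl⟩ := hcl
  ext y
  simp only [com, mem_filter, mem_erase, mem_cn, mem_singleton, forall_eq, notMem_empty,
    false_imp_iff, implies_true, true_and] at hx ⊢
  constructor
  · rintro ⟨h1, h2, h3⟩
    exact ⟨fun h => G.irrefl (h ▸ h1), h2, h3⟩
  · rintro ⟨h1, h2, h3⟩
    refine ⟨?_, h2, h3⟩
    refine hcl.isClique ?_ ?_ h1
    · have : y ∈ com G ∅ v w := by
        rw [com, mem_filter]; exact ⟨by simp [mem_cn], h2, h3⟩
      exact_mod_cast this
    · have : x ∈ com G ∅ v w := by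
        rw [com, mem_filter]; exact ⟨by simp [mem_cn], hx.1, hx.2⟩
      exact_mod_cast this

theorem com_clique (hsq : NoSquare G) {v w : V} (hw : w ∈ away G v) :
    ∃ n, G.IsNClique n (com G ∅ v w) := by
  have h0 : G.IsNClique 0 (∅ : Finset V) := ⟨by simp, rfl⟩
  have hvm : v ∈ cn G ∅ := by simp [mem_cn]
  rw [away, mem_filter] at hw
  have h := common_clique hsq h0 hvm hw.2.1 hw.2.2
  exact ⟨_, clique_sub h.isClique subset_union_left, rfl⟩

/-- Exchange of sums. -/
theorem swap_sum (v : V) (f : V → V → ℕ) :
    ∑ x ∈ cn G {v}, ∑ w ∈ (cn G {x}).filter (fun w => w ≠ v ∧ ¬ G.Adj v w), f x w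
      = ∑ w ∈ away G v, ∑ x ∈ com G ∅ v w, f x w := by
  refine Finset.sum_comm' ?_
  intro x w
  simp only [away, com, mem_filter, mem_cn, mem_singleton, forall_eq, notMem_empty,
    false_imp_iff, implies_true, mem_univ, true_and]
  constructor
  · rintro ⟨h1, h2, h3⟩
    exact ⟨⟨h1.symm, h2.symm⟩, h3⟩
  · rintro ⟨⟨h1, h2⟩, h3⟩
    exact ⟨h1.symm, h2.symm, h3⟩

theorem count_one (v : V) :
    ∑ x ∈ cn G {v}, ((cn G {x}).filter (fun w => w ≠ v ∧ ¬ G.Adj v w)).card
      = ∑ w ∈ away G v, (com G ∅ v w).card := by
  have h := swap_sum (G := G) v (fun _ _ => 1)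
  simpa using h

theorem count_two (hsq : NoSquare G) (v : V) :
    ∑ x ∈ cn G {v}, ∑ y ∈ cn G (insert v {x}), (far G x v y).card
      = ∑ w ∈ away G v, (com G ∅ v w).card * ((com G ∅ v w).card - 1) := by
  have h1 : ∀ x ∈ cn G {v}, ∑ y ∈ cn G (insert v {x}), (far G x v y).card
      = ∑ w ∈ (cn G {x}).filter (fun w => w ≠ v ∧ ¬ G.Adj v w), (com G {x} v w).card := by
    intro x _
    have hp := paths_eq (G := G) (cn G {x}) v
    have hL : (cn G {x}).filter (fun y => G.Adj v y) = cn G (insert v {x}) := (cn_insert _ _).symm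
    rw [hL] at hp
    exact hp
  rw [sum_congr rfl h1, swap_sum v (fun x w => (com G {x} v w).card)]
  refine sum_congr rfl fun w hw => ?_
  have : ∀ x ∈ com G ∅ v w, (com G {x} v w).card = (com G ∅ v w).card - 1 := by
    intro x hx
    rw [com_erase hx (com_clique hsq hw), card_erase_of_mem hx]
  rw [sum_congr rfl this, sum_const, smul_eq_mul]

theorem count_three (hsq : NoSquare G) (v : V) :
    ∑ x ∈ cn G {v}, ∑ y ∈ cn G (insert v {x}), ∑ z ∈ cn G (insert y (insert v {x})),
        (far2 G x v y z).card
      = ∑ w ∈ away G v, (com G ∅ v w).card *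
          (((com G ∅ v w).card - 1) * ((com G ∅ v w).card - 2)) := by
  have h1 : ∀ x ∈ cn G {v}, ∑ y ∈ cn G (insert v {x}), ∑ z ∈ cn G (insert y (insert v {x})),
        (far2 G x v y z).card
      = ∑ w ∈ (cn G {x}).filter (fun w => w ≠ v ∧ ¬ G.Adj v w),
        (com G {x} v w).card * ((com G {x} v w).card - 1) := by
    intro x hx
    have hvx : v ∈ cn G {x} := mem_cn_symm.2 (mem_cn_symm.1 hx).symm
    exact pairs_eq hsq hvx
  rw [sum_congr rfl h1, swap_sum v (fun x w => (com G {x} v w).card * ((com G {x} v w).card - 1))]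
  refine sum_congr rfl fun w hw => ?_
  have : ∀ x ∈ com G ∅ v w, (com G {x} v w).card * ((com G {x} v w).card - 1)
      = ((com G ∅ v w).card - 1) * ((com G ∅ v w).card - 2) := by
    intro x hx
    rw [com_erase hx (com_clique hsq hw), card_erase_of_mem hx]
    rfl
  rw [sum_congr rfl this, sum_const, smul_eq_mul]

include h6 hsq h45 hpure hedge in
/-- The number of vertices is at least `1 + 12 deg v`. -/
theorem vertices_ge (v : V) : 1 + 12 * above G 2 {v} ≤ Fintype.card V := by
  have hv := single (G := G) v
  have h0 : G.IsNClique 0 (∅ : Finset V) := ⟨by simp, rfl⟩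
  have hvm : v ∈ cn G ∅ := by simp [mem_cn]
  have hsplit := away_split (G := G) v
  have c1 := count_one (G := G) v
  have c2 := count_two hsq v
  have c3 := count_three hsq v
  have c4 := four_count h6 hsq h45 v
  -- inclusion and exclusion over the vertices away from v
  have hincl : ∑ w ∈ away G v, (6 * (com G ∅ v w).card + (com G ∅ v w).card *
          (((com G ∅ v w).card - 1) * ((com G ∅ v w).card - 2)))
      ≤ ∑ w ∈ away G v, (6 + 3 * ((com G ∅ v w).card * ((com G ∅ v w).card - 1))
        + 6 * (if (com G ∅ v w).card = 4 then 1 else 0)) := by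
    refine sum_le_sum fun w hw => ?_
    rw [away, mem_filter] at hw
    have hle := common_le h6 hsq h0 hvm hw.2.1 hw.2.2
    have : (com G ∅ v w).card ≤ 4 := by omega
    interval_cases h : (com G ∅ v w).card <;> simp
  rw [sum_add_distrib, sum_add_distrib, sum_add_distrib, ← mul_sum, ← mul_sum, ← mul_sum,
    sum_const, smul_eq_mul, ← card_filter, away, filter_filter] at hincl
  rw [away] at c1 c2 c3 hsplit
  rw [← c1, ← c2, ← c3] at hincl
  -- the sums over the link
  have hadj : ∀ x ∈ cn G {v}, v ∈ cn G {x} := fun x hx => mem_cn_symm.2 (mem_cn_symm.1 hx).symm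
  have hcomm : ∀ x : V, (insert v {x} : Finset V) = insert x {v} := fun x => Finset.pair_comm v x
  have l1 := sum_le_sum fun x h => local_incl h6 hsq h45 (hadj x h)
  rw [sum_add_distrib, sum_add_distrib, ← mul_sum, ← mul_sum, ← mul_sum] at l1
  have s5 : ∑ x ∈ cn G {v}, above G 5 (insert v {x}) = 4 * above G 5 {v} := by
    simp only [hcomm]; exact sum_cn hv
  rw [s5] at l1
  have l2 := sum_le_sum fun x (h : x ∈ cn G {v}) => sum_le_sum fun y hy =>
    (local_ineq h6 hsq h45 hpure hedge (hadj x h) (x := y) hy).1
  have l3 := sum_le_sum fun x (h : x ∈ cn G {v}) => sum_le_sum fun y hy =>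
    (local_ineq h6 hsq h45 hpure hedge (hadj x h) (x := y) hy).2
  have s4 : ∑ x ∈ cn G {v}, ∑ y ∈ cn G (insert v {x}), above G 4 (insert y (insert v {x}))
      = 6 * above G 4 {v} := by
    have : ∀ x ∈ cn G {v}, ∑ y ∈ cn G (insert v {x}), above G 4 (insert y (insert v {x}))
        = 2 * above G 4 (insert x {v}) := by
      intro x hx
      simp only [hcomm]
      exact sum_cn (insert_clique hv hx)
    have h3 : ∑ x ∈ cn G {v}, above G 4 (insert x {v}) = 3 * above G 4 {v} := sum_cn hv
    rw [sum_congr rfl this, ← mul_sum, h3]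
    ring
  have s3 : ∑ x ∈ cn G {v}, (cn G (insert v {x})).card = 2 * above G 3 {v} := by
    have : ∀ x ∈ cn G {v}, (cn G (insert v {x})).card = above G 3 (insert x {v}) := by
      intro x hx
      rw [hcomm, above_succ (insert_clique hv hx)]
    rw [sum_congr rfl this]
    exact sum_cn hv
  simp only [sum_add_distrib, ← mul_sum, sum_const, smul_eq_mul] at l2 l3
  rw [← sum_mul, s3, s4] at l2
  rw [s4] at l3
  -- relations in the link of v
  have r1 : 2 * above G 4 {v} = 4 * above G 5 {v} := by
    have h := sum_above (G := G) {v} 4 5 (by rw [card_singleton]; omega)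
    rw [card_singleton] at h
    have h2 : ∑ t ∈ (G.cliqueFinset 4).filter (fun t => {v} ⊆ t), above G 5 t
        = ∑ t ∈ (G.cliqueFinset 4).filter (fun t => {v} ⊆ t), 2 := by
      refine sum_congr rfl fun t ht => ?_
      simp only [mem_filter, SimpleGraph.mem_cliqueFinset_iff] at ht
      exact h45 t ht.1
    rw [h2, sum_const, smul_eq_mul] at h
    have h3 : ((G.cliqueFinset 4).filter (fun t => {v} ⊆ t)).card = above G 4 {v} := rfl
    have h4 : (5 - 1).choose (4 - 1) = 4 := by decide
    rw [h3, h4] at h
    omega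
  have r2 : 2 * above G 3 {v} + 4 * above G 5 {v} = 3 * above G 4 {v} + 2 * above G 2 {v} := by
    have h := sum_congr (rfl : cn G {v} = cn G {v})
      (fun x hx => hedge _ (insert_clique hv hx))
    have h3 : ∑ x ∈ cn G {v}, above G 3 (insert x {v}) = 2 * above G 3 {v} := sum_cn hv
    have h4 : ∑ x ∈ cn G {v}, above G 4 (insert x {v}) = 3 * above G 4 {v} := sum_cn hv
    have h5 : ∑ x ∈ cn G {v}, above G 5 (insert x {v}) = 4 * above G 5 {v} := sum_cn hv
    have h6 : (cn G {v}).card = above G 2 {v} := (above_succ hv).symm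
    rw [sum_add_distrib, sum_add_distrib, h3, h4, h5, sum_const, smul_eq_mul, h6] at h
    omega
  omega

end deg

end Pool.Agent.FNS
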