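import Pool.Agent.FNS.Degree

/-!
# The number of vertices and the Euler characteristic
-/

set_option autoImplicit false

namespace Pool.Agent.FNS

open Finset

variable {V : Type*} [Fintype V] [DecidableEq V] {G : SimpleGraph V} [DecidableRel G.Adj]

theorem card_cliques_one : (G.cliqueFinset 1).card = Fintype.card V := by
  have h0 : G.IsNClique 0 (∅ : Finset V) := ⟨by simp, rfl⟩
  have h := above_succ h0
  rw [above_empty] at h
  have hempty : cn G ∅ = univ := by ext x; simp [mem_cn]
  rw [hempty] at h
  exact h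

theorem above_degree (v : V) : above G 2 {v} = G.degree v := by
  rw [above_succ (single v), SimpleGraph.degree]
  congr 1
  ext x
  rw [mem_cn_symm, SimpleGraph.mem_neighborFinset, G.adj_comm]

/-- The number of vertices is at most the Euler characteristic. -/
theorem card_le_euler (h6 : G.CliqueFree 6) (hsq : NoSquare G)
    (h45 : ∀ s, G.IsNClique 4 s → above G 5 s = 2)
    (hpure : ∀ s : Finset V, G.IsClique (s : Set V) → ∃ t, G.IsNClique 5 t ∧ s ⊆ t)
    (hedge : ∀ s, G.IsNClique 2 s → above G 3 s + above G 5 s = above G 4 s + 2) :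
    (Fintype.card V : ℤ) ≤ ∑ k ∈ range 5, (-1 : ℤ) ^ k * ((G.cliqueFinset (k + 1)).card : ℤ) := by
  have hp3 : ∀ s, G.IsNClique 3 s → (cn G s).Nonempty := fun s hs => cn_nonempty hpure hs (by omega)
  have h1 := card_cliques_one (G := G)
  have hall : ∀ j, (G.cliqueFinset j).filter (fun t => (∅ : Finset V) ⊆ t) = G.cliqueFinset j := by
    intro j; simp
  -- 4-cliques and 5-cliques
  have r1 : 2 * (G.cliqueFinset 4).card = 5 * (G.cliqueFinset 5).card := by
    have h := sum_above (G := G) ∅ 4 5 (by simp)
    rw [hall, above_empty, card_empty] at h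
    have h2 : ∑ t ∈ G.cliqueFinset 4, above G 5 t = ∑ t ∈ G.cliqueFinset 4, 2 :=
      sum_congr rfl fun t ht => h45 t (SimpleGraph.mem_cliqueFinset_iff.1 ht)
    rw [h2, sum_const, smul_eq_mul] at h
    have h4 : (5 - 0).choose (4 - 0) = 5 := by decide
    rw [h4] at h
    omega
  have e3 : ∑ t ∈ G.cliqueFinset 2, above G 3 t = 3 * (G.cliqueFinset 3).card := by
    have h := sum_above (G := G) ∅ 2 3 (by simp)
    rw [hall, above_empty, card_empty] at h
    exact h
  have e4 : ∑ t ∈ G.cliqueFinset 2, above G 4 t = 6 * (G.cliqueFinset 4).card := by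
    have h := sum_above (G := G) ∅ 2 4 (by simp)
    rw [hall, above_empty, card_empty] at h
    exact h
  have e5 : ∑ t ∈ G.cliqueFinset 2, above G 5 t = 10 * (G.cliqueFinset 5).card := by
    have h := sum_above (G := G) ∅ 2 5 (by simp)
    rw [hall, above_empty, card_empty] at h
    exact h
  have r2 : 3 * (G.cliqueFinset 3).card + 10 * (G.cliqueFinset 5).card
      = 6 * (G.cliqueFinset 4).card + 2 * (G.cliqueFinset 2).card := by
    have h := sum_congr (rfl : G.cliqueFinset 2 = G.cliqueFinset 2)
      (fun t ht => hedge t (SimpleGraph.mem_cliqueFinset_iff.1 ht))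
    rw [sum_add_distrib, sum_add_distrib, e3, e4, e5, sum_const, smul_eq_mul] at h
    omega
  have r3 : 12 * (G.cliqueFinset 2).card ≤ 3 * (G.cliqueFinset 3).card := by
    rw [← e3, mul_comm, ← smul_eq_mul, ← sum_const]
    exact sum_le_sum fun t ht =>
      (twelve_le h6 hsq h45 hp3 hedge (SimpleGraph.mem_cliqueFinset_iff.1 ht)).1
  simp only [sum_range_succ, range_zero, sum_empty, pow_zero, pow_one, zero_add]
  norm_num
  omega

end Pool.Agent.FNS
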