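import Pool.Agent.FNS.Basic

/-!
# Flag no-square four-dimensional pseudomanifolds
-/

set_option autoImplicit false

namespace Pool.Agent.FNS

open Finset

variable {V : Type*} [Fintype V] [DecidableEq V] {G : SimpleGraph V} [DecidableRel G.Adj]

/-- No induced square. -/
def NoSquare (G : SimpleGraph V) : Prop :=
  ∀ a b c d : V, a ≠ c → b ≠ d → G.Adj a b → G.Adj b c → G.Adj c d → G.Adj d a →
    G.Adj a c ∨ G.Adj b d

theorem cn_insert (s : Finset V) (x : V) :
    cn G (insert x s) = (cn G s).filter (fun y => G.Adj x y) := by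
  ext y
  simp only [mem_cn, mem_filter, mem_insert, forall_eq_or_imp]
  constructor
  · rintro ⟨h1, h2⟩; exact ⟨h2, h1.symm⟩
  · rintro ⟨h1, h2⟩; exact ⟨h2.symm, h1⟩

/-- The link of a triangle has at least five vertices. -/
theorem five_le (h6 : G.CliqueFree 6) (hsq : NoSquare G)
    (h45 : ∀ s, G.IsNClique 4 s → above G 5 s = 2)
    (hpure : ∀ s, G.IsNClique 3 s → (cn G s).Nonempty)
    {s : Finset V} (hs : G.IsNClique 3 s) : 5 ≤ (cn G s).card := by
  have hdeg : ∀ x ∈ cn G s, ((cn G s).filter (fun y => G.Adj x y)).card = 2 := by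
    intro x hx
    have h1 := insert_clique hs hx
    have h2 := above_succ h1
    rw [cn_insert] at h2
    rw [← h2]
    exact h45 _ h1
  have htri : ∀ x ∈ cn G s, ∀ y ∈ cn G s, ∀ z ∈ cn G s, G.Adj x y → G.Adj y z → ¬ G.Adj x z := by
    intro x hx y hy z hz hxy hyz hxz
    have h1 := insert_clique hs hx
    have hy' : y ∈ cn G (insert x s) := by rw [cn_insert, mem_filter]; exact ⟨hy, hxy⟩
    have h2 := insert_clique h1 hy'
    have hz' : z ∈ cn G (insert y (insert x s)) := by
      rw [cn_insert, cn_insert, mem_filter, mem_filter]; exact ⟨⟨hz, hxz⟩, hyz⟩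
    exact h6 _ (insert_clique h2 hz')
  obtain ⟨x, hx⟩ := hpure s hs
  obtain ⟨y, z, hyz, hN⟩ := card_eq_two.1 (hdeg x hx)
  have hy : y ∈ (cn G s).filter (fun y => G.Adj x y) := by rw [hN]; simp
  have hz : z ∈ (cn G s).filter (fun y => G.Adj x y) := by rw [hN]; simp
  rw [mem_filter] at hy hz
  have hnyz : ¬ G.Adj y z := htri y hy.1 x hx z hz.1 hy.2.symm hz.2
  -- the other neighbours of y and z
  have other : ∀ a ∈ cn G s, G.Adj x a → ∃ b ∈ cn G s, b ≠ x ∧ G.Adj a b := by
    intro a ha hxa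
    obtain ⟨p, q, hpq, hpqN⟩ := card_eq_two.1 (hdeg a ha)
    have hp : p ∈ (cn G s).filter (fun y => G.Adj a y) := by rw [hpqN]; simp
    have hq : q ∈ (cn G s).filter (fun y => G.Adj a y) := by rw [hpqN]; simp
    rw [mem_filter] at hp hq
    by_cases h : p = x
    · exact ⟨q, hq.1, fun h' => hpq (h.trans h'.symm), hq.2⟩
    · exact ⟨p, hp.1, h, hp.2⟩
  obtain ⟨y', hy', hy'x, hyy'⟩ := other y hy.1 hy.2
  obtain ⟨z', hz', hz'x, hzz'⟩ := other z hz.1 hz.2
  have hxy' : ¬ G.Adj x y' := htri x hx y hy.1 y' hy' hy.2 hyy'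
  have hy'z : y' ≠ z := fun h => hxy' (h ▸ hz.2)
  have hxz' : ¬ G.Adj x z' := htri x hx z hz.1 z' hz' hz.2 hzz'
  have hz'y : z' ≠ y := fun h => hxz' (h ▸ hy.2)
  have hy'y : y' ≠ y := fun h => G.irrefl (h ▸ hyy')
  have hz'z : z' ≠ z := fun h => G.irrefl (h ▸ hzz')
  have hyz' : y' ≠ z' := by
    intro h
    rcases hsq x y y' z hy'x.symm hyz hy.2 hyy' (h ▸ hzz'.symm) hz.2.symm with h1 | h1
    · exact hxy' h1
    · exact hnyz h1
  have hxy : x ≠ y := fun h => G.irrefl (h ▸ hy.2)
  have hxz : x ≠ z := fun h => G.irrefl (h ▸ hz.2)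
  have hsub : ({x, y, z, y', z'} : Finset V) ⊆ cn G s := by
    intro a ha
    simp only [mem_insert, mem_singleton] at ha
    rcases ha with rfl | rfl | rfl | rfl | rfl
    · exact hx
    · exact hy.1
    · exact hz.1
    · exact hy'
    · exact hz'
  have hcard : ({x, y, z, y', z'} : Finset V).card = 5 := by
    rw [card_insert_of_notMem, card_insert_of_notMem, card_insert_of_notMem,
      card_insert_of_notMem, card_singleton]
    · simp [hyz']
    · simp [hy'z.symm, hz'z.symm]
    · simp [hyz, hy'y.symm, hz'y.symm]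
    · simp [hxy, hxz, hy'x.symm, hz'x.symm]
  calc 5 = _ := hcard.symm
    _ ≤ _ := card_le_card hsub

section edge

variable (h6 : G.CliqueFree 6) (hsq : NoSquare G)
    (h45 : ∀ s, G.IsNClique 4 s → above G 5 s = 2)
    (hpure : ∀ s, G.IsNClique 3 s → (cn G s).Nonempty)
    (hedge : ∀ s, G.IsNClique 2 s → above G 3 s + above G 5 s = above G 4 s + 2)

include h45 in
theorem edge45 {e : Finset V} (he : G.IsNClique 2 e) : 2 * above G 4 e = 3 * above G 5 e := by
  have h := sum_above (G := G) e 4 5 (by rw [he.card_eq]; omega)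
  rw [he.card_eq] at h
  have h2 : ∑ t ∈ (G.cliqueFinset 4).filter (fun t => e ⊆ t), above G 5 t
      = ∑ t ∈ (G.cliqueFinset 4).filter (fun t => e ⊆ t), 2 := by
    refine sum_congr rfl fun t ht => ?_
    simp only [mem_filter, SimpleGraph.mem_cliqueFinset_iff] at ht
    exact h45 t ht.1
  rw [h2, sum_const, smul_eq_mul] at h
  have h3 : ((G.cliqueFinset 4).filter (fun t => e ⊆ t)).card = above G 4 e := rfl
  have h4 : (5 - 2).choose (4 - 2) = 3 := by decide
  rw [h3, h4] at h
  omega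

include h6 hsq h45 hpure in
theorem edge34 {e : Finset V} (he : G.IsNClique 2 e) : 5 * above G 3 e ≤ 2 * above G 4 e := by
  have h := sum_above (G := G) e 3 4 (by rw [he.card_eq]; omega)
  rw [he.card_eq] at h
  have h4 : (4 - 2).choose (3 - 2) = 2 := by decide
  rw [h4] at h
  rw [← h]
  have h2 : ∑ t ∈ (G.cliqueFinset 3).filter (fun t => e ⊆ t), 5
      ≤ ∑ t ∈ (G.cliqueFinset 3).filter (fun t => e ⊆ t), above G 4 t := by
    refine sum_le_sum fun t ht => ?_
    simp only [mem_filter, SimpleGraph.mem_cliqueFinset_iff] at ht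
    rw [above_succ ht.1]
    exact five_le h6 hsq h45 hpure ht.1
  rw [sum_const, smul_eq_mul] at h2
  have h3 : ((G.cliqueFinset 3).filter (fun t => e ⊆ t)).card = above G 3 e := rfl
  rw [h3] at h2
  omega

include h6 hsq h45 hpure hedge in
theorem twelve_le {e : Finset V} (he : G.IsNClique 2 e) :
    12 ≤ above G 3 e ∧ above G 4 e + 6 = 3 * above G 3 e := by
  have h1 := edge45 h45 he
  have h2 := edge34 h6 hsq h45 hpure he
  have h3 := hedge e he
  omega

end edge

end Pool.Agent.FNS
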