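import Pool.Agent.FNS.Main

/-!
# Degrees in flag no-square four-dimensional pseudomanifolds
-/

set_option autoImplicit false

namespace Pool.Agent.FNS

open Finset

variable {V : Type*} [Fintype V] [DecidableEq V] {G : SimpleGraph V} [DecidableRel G.Adj]

omit [Fintype V] [DecidableEq V] [DecidableRel G.Adj] in
theorem card_le_five (h6 : G.CliqueFree 6) {s : Finset V} (hs : G.IsClique (s : Set V)) :
    s.card ≤ 5 := by
  by_contra h
  obtain ⟨t, hts, ht⟩ := exists_subset_card_eq (s := s) (n := 6) (by omega)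
  exact h6 t ⟨clique_sub hs hts, ht⟩

omit [Fintype V] in
/-- Counting two-step paths inside `X`. -/
theorem paths_eq (X : Finset V) (u : V) :
    ∑ x ∈ X.filter (fun x => G.Adj u x), (X.filter (fun w => G.Adj x w ∧ w ≠ u ∧ ¬ G.Adj u w)).card
      = ∑ w ∈ X.filter (fun w => w ≠ u ∧ ¬ G.Adj u w),
        (X.filter (fun x => G.Adj u x ∧ G.Adj x w)).card := by
  have h1 := Finset.sum_card_bipartiteAbove_eq_sum_card_bipartiteBelow
    (s := X.filter (fun x => G.Adj u x)) (t := X.filter (fun w => w ≠ u ∧ ¬ G.Adj u w))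
    (fun x w => G.Adj x w)
  have h2 : ∀ x ∈ X.filter (fun x => G.Adj u x),
      (X.filter (fun w => G.Adj x w ∧ w ≠ u ∧ ¬ G.Adj u w)).card
        = (bipartiteAbove (fun x w => G.Adj x w) (X.filter (fun w => w ≠ u ∧ ¬ G.Adj u w)) x).card := by
    intro x _
    unfold bipartiteAbove
    congr 1
    ext w
    simp only [mem_filter]
    tauto
  rw [sum_congr rfl h2, h1]
  refine sum_congr rfl fun w hw => ?_
  unfold bipartiteBelow
  congr 1
  ext x
  simp only [mem_filter]
  tauto

omit [Fintype V] in
/-- Splitting a set of vertices by the relation to `u`. -/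
theorem card_split (X : Finset V) (u : V) (hu : u ∈ X) :
    X.card = 1 + (X.filter (fun x => G.Adj u x)).card
      + (X.filter (fun w => w ≠ u ∧ ¬ G.Adj u w)).card := by
  have h1 := card_filter_add_card_filter_not (s := X) (fun x => G.Adj u x)
  have h2 : X.filter (fun x => ¬ G.Adj u x)
      = insert u (X.filter (fun w => w ≠ u ∧ ¬ G.Adj u w)) := by
    ext w
    simp only [mem_filter, mem_insert]
    constructor
    · rintro ⟨h1, h2⟩
      by_cases h : w = u
      · exact Or.inl h
      · exact Or.inr ⟨h1, h, h2⟩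
    · rintro (rfl | ⟨h1, _, h2⟩)
      · exact ⟨hu, G.irrefl⟩
      · exact ⟨h1, h2⟩
  rw [h2, card_insert_of_notMem (by simp)] at h1
  omega

/-- Common neighbours of `u` and `w` above `r`. -/
def com (G : SimpleGraph V) [DecidableRel G.Adj] (r : Finset V) (u w : V) : Finset V :=
  (cn G r).filter (fun x => G.Adj u x ∧ G.Adj x w)

/-- Common neighbours of two non-adjacent vertices above a clique `r`. -/
theorem common_clique (hsq : NoSquare G) {r : Finset V} {n : ℕ}
    (hr : G.IsNClique n r) {u w : V} (hu : u ∈ cn G r) (hwu : w ≠ u) (huw : ¬ G.Adj u w) :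
    G.IsNClique ((com G r u w).card + n + 1) (com G r u w ∪ insert u r) := by
  have hur : G.IsNClique (n + 1) (insert u r) := insert_clique hr hu
  have hCr : ∀ x ∈ com G r u w, ∀ y ∈ insert u r, G.Adj x y := by
    intro x hx y hy
    rw [com, mem_filter] at hx
    rcases mem_insert.1 hy with rfl | hy
    · exact hx.2.1.symm
    · exact mem_cn.1 hx.1 y hy
  have hdis : Disjoint (com G r u w) (insert u r) := by
    rw [disjoint_left]
    intro x hx hx'
    exact G.irrefl (hCr x hx x hx')
  have hcl : G.IsClique ((com G r u w ∪ insert u r : Finset V) : Set V) := by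
    intro x hx y hy hxy
    have hx' : x ∈ com G r u w ∪ insert u r := by exact_mod_cast hx
    have hy' : y ∈ com G r u w ∪ insert u r := by exact_mod_cast hy
    rcases mem_union.1 hx' with h1 | h1 <;> rcases mem_union.1 hy' with h2 | h2
    · rw [com, mem_filter] at h1 h2
      rcases hsq u x w y hwu.symm hxy h1.2.1 h1.2.2 h2.2.2.symm h2.2.1.symm with h | h
      · exact absurd h huw
      · exact h
    · exact hCr x h1 y h2
    · exact (hCr y h2 x h1).symm
    · exact hur.isClique (by exact_mod_cast h1) (by exact_mod_cast h2) hxy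
  refine ⟨hcl, ?_⟩
  rw [card_union_of_disjoint hdis, hur.card_eq]
  omega

theorem common_le (h6 : G.CliqueFree 6) (hsq : NoSquare G) {r : Finset V} {n : ℕ}
    (hr : G.IsNClique n r) {u w : V} (hu : u ∈ cn G r) (hwu : w ≠ u) (huw : ¬ G.Adj u w) :
    (com G r u w).card + n + 1 ≤ 5 := by
  have h := common_clique hsq hr hu hwu huw
  have h5 := card_le_five h6 h.isClique
  rw [h.card_eq] at h5
  exact h5

section vertex

variable (h6 : G.CliqueFree 6) (hsq : NoSquare G)
    (h45 : ∀ s, G.IsNClique 4 s → above G 5 s = 2)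
    (hpure : ∀ s : Finset V, G.IsClique (s : Set V) → ∃ t, G.IsNClique 5 t ∧ s ⊆ t)
    (hedge : ∀ s, G.IsNClique 2 s → above G 3 s + above G 5 s = above G 4 s + 2)

include hpure in
theorem cn_nonempty {s : Finset V} {n : ℕ} (hs : G.IsNClique n s) (hn : n ≤ 4) :
    (cn G s).Nonempty := by
  obtain ⟨t, ht, hst⟩ := hpure s hs.isClique
  have : (t \ s).Nonempty := by
    rw [← card_pos, card_sdiff_of_subset hst, ht.card_eq, hs.card_eq]; omega
  obtain ⟨x, hx⟩ := this
  rw [mem_sdiff] at hx
  refine ⟨x, mem_cn.2 fun y hy => ?_⟩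
  exact ht.isClique (by exact_mod_cast hx.1) (by exact_mod_cast hst hy) (fun h => hx.2 (h ▸ hy))

omit [DecidableRel G.Adj] [Fintype V] [DecidableEq V] in
theorem single (v : V) : G.IsNClique 1 ({v} : Finset V) := by
  refine ⟨?_, card_singleton v⟩
  simp

theorem sum_cn {s : Finset V} {n k : ℕ} (hs : G.IsNClique n s) :
    ∑ x ∈ cn G s, above G k (insert x s) = (k - n) * above G k s := by
  rw [← sum_above_succ hs, sum_above s (n + 1) k (by rw [hs.card_eq]; omega), hs.card_eq]
  have : n + 1 - n = 1 := by omega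
  rw [this, Nat.choose_one_right]

include h6 hsq h45 in
/-- Many vertices see a full triangle of the link of an edge. -/
theorem three_count {r : Finset V} {n : ℕ} (hr : G.IsNClique n r) {u : V} (hu : u ∈ cn G r)
    (hn : n ≤ 3) :
    above G 5 (insert u r) ≤
      ((cn G r).filter (fun w => (w ≠ u ∧ ¬ G.Adj u w) ∧ (com G r u w).card = 4 - n)).card := by
  have hur := insert_clique hr hu
  refine card_le_card_of_surjOn (fun w => com G r u w ∪ insert u r) ?_
  intro t ht
  have ht' : t ∈ (G.cliqueFinset 5).filter (fun t => insert u r ⊆ t) := by exact_mod_cast ht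
  rw [mem_filter, SimpleGraph.mem_cliqueFinset_iff] at ht'
  obtain ⟨htc, hrt⟩ := ht'
  have hut : u ∈ t := hrt (mem_insert_self u r)
  have hs : G.IsNClique 4 (t.erase u) := by
    refine ⟨clique_sub htc.isClique (erase_subset u t), ?_⟩
    rw [card_erase_of_mem hut, htc.card_eq]
  have h2 := h45 _ hs
  rw [above_succ hs] at h2
  have huc : u ∈ cn G (t.erase u) := mem_cn.2 fun y hy => by
    rw [mem_erase] at hy
    exact htc.isClique (by exact_mod_cast hut) (by exact_mod_cast hy.2) hy.1.symm
  obtain ⟨w, hw⟩ : ((cn G (t.erase u)).erase u).Nonempty := by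
    rw [← card_pos, card_erase_of_mem huc]; omega
  rw [mem_erase] at hw
  obtain ⟨hwu, hwc⟩ := hw
  have hnadj : ¬ G.Adj u w := by
    intro h
    have hwt : w ∈ cn G t := mem_cn.2 fun y hy => by
      by_cases hyu : y = u
      · rw [hyu]; exact h.symm
      · exact mem_cn.1 hwc y (mem_erase.2 ⟨hyu, hy⟩)
    exact h6 _ (insert_clique htc hwt)
  have hwr : w ∈ cn G r := mem_cn.2 fun y hy => by
    refine mem_cn.1 hwc y (mem_erase.2 ⟨?_, hrt (mem_insert_of_mem hy)⟩)
    rintro rfl
    exact cn_notMem hu hy
  have hsub : t ⊆ com G r u w ∪ insert u r := by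
    intro x hx
    rw [mem_union]
    by_cases hxr : x ∈ insert u r
    · exact Or.inr hxr
    · left
      have hxu : x ≠ u := fun h => hxr (h ▸ mem_insert_self u r)
      rw [com, mem_filter]
      refine ⟨mem_cn.2 fun y hy => ?_, ?_, ?_⟩
      · refine htc.isClique (by exact_mod_cast hx)
          (by exact_mod_cast hrt (mem_insert_of_mem hy)) ?_
        rintro rfl
        exact hxr (mem_insert_of_mem hy)
      · exact htc.isClique (by exact_mod_cast hut) (by exact_mod_cast hx) hxu.symm
      · exact (mem_cn.1 hwc x (mem_erase.2 ⟨hxu, hx⟩)).symm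
  have hcl := common_clique hsq hr hu hwu hnadj
  have hle := common_le h6 hsq hr hu hwu hnadj
  have hge := card_le_card hsub
  rw [htc.card_eq, hcl.card_eq] at hge
  have heq : t = com G r u w ∪ insert u r :=
    eq_of_subset_of_card_le hsub (by rw [hcl.card_eq, htc.card_eq]; omega)
  refine ⟨w, ?_, heq.symm⟩
  have : w ∈ (cn G r).filter (fun w => (w ≠ u ∧ ¬ G.Adj u w) ∧ (com G r u w).card = 4 - n) := by
    rw [mem_filter]
    exact ⟨hwr, ⟨hwu, hnadj⟩, by omega⟩
  exact_mod_cast this

include h6 hsq h45 in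
/-- Few vertices see a full tetrahedron of the link of a vertex. -/
theorem four_count (v : V) :
    (univ.filter (fun w => (w ≠ v ∧ ¬ G.Adj v w) ∧ (com G ∅ v w).card = 4)).card
      ≤ above G 5 {v} := by
  have h0 : G.IsNClique 0 (∅ : Finset V) := ⟨by simp, rfl⟩
  have hvm : v ∈ cn G ∅ := by simp [mem_cn]
  refine card_le_card_of_injOn (fun w => com G ∅ v w ∪ insert v ∅) ?_ ?_
  · intro w hw
    have hw' : w ∈ univ.filter (fun w => (w ≠ v ∧ ¬ G.Adj v w) ∧ (com G ∅ v w).card = 4) := by
      exact_mod_cast hw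
    rw [mem_filter] at hw'
    have hcl := common_clique hsq h0 hvm hw'.2.1.1 hw'.2.1.2
    rw [hw'.2.2] at hcl
    have : com G ∅ v w ∪ insert v ∅ ∈ (G.cliqueFinset 5).filter (fun t => {v} ⊆ t) := by
      rw [mem_filter, SimpleGraph.mem_cliqueFinset_iff]
      refine ⟨hcl, ?_⟩
      intro x hx
      rw [mem_singleton] at hx
      rw [hx, mem_union]
      exact Or.inr (mem_insert_self v ∅)
    exact_mod_cast this
  · intro w hw w' hw' heq
    have h1 : w ∈ univ.filter (fun w => (w ≠ v ∧ ¬ G.Adj v w) ∧ (com G ∅ v w).card = 4) := by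
      exact_mod_cast hw
    have h2 : w' ∈ univ.filter (fun w => (w ≠ v ∧ ¬ G.Adj v w) ∧ (com G ∅ v w).card = 4) := by
      exact_mod_cast hw'
    rw [mem_filter] at h1 h2
    have hv : ∀ z, v ∉ com G ∅ v z := by
      intro z hz
      rw [com, mem_filter] at hz
      exact G.irrefl hz.2.1
    have hcom : com G ∅ v w = com G ∅ v w' := by
      have e : ∀ z, (com G ∅ v z ∪ insert v ∅).erase v = com G ∅ v z := by
        intro z
        ext x
        simp only [mem_erase, mem_union, mem_insert, notMem_empty, or_false]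
        constructor
        · rintro ⟨h1, h2 | h2⟩
          · exact h2
          · exact absurd h2 h1
        · intro h
          exact ⟨fun h' => hv z (h' ▸ h), Or.inl h⟩
      rw [← e w, ← e w']
      exact congrArg (fun s => s.erase v) heq
    have hcl := common_clique hsq h0 hvm h1.2.1.1 h1.2.1.2
    have hC : G.IsNClique 4 (com G ∅ v w) := by
      refine ⟨clique_sub hcl.isClique subset_union_left, h1.2.2⟩
    have h3 := h45 _ hC
    rw [above_succ hC] at h3
    by_contra hne
    have hsub : ({v, w, w'} : Finset V) ⊆ cn G (com G ∅ v w) := by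
      intro z hz
      simp only [mem_insert, mem_singleton] at hz
      rw [mem_cn]
      intro y hy
      rcases hz with rfl | rfl | rfl
      · rw [com, mem_filter] at hy; exact hy.2.1
      · rw [com, mem_filter] at hy; exact hy.2.2.symm
      · rw [hcom, com, mem_filter] at hy; exact hy.2.2.symm
    have hcard : ({v, w, w'} : Finset V).card = 3 := by
      rw [card_insert_of_notMem, card_insert_of_notMem, card_singleton]
      · simp [hne]
      · simp [h1.2.1.1.symm, h2.2.1.1.symm]
    have := card_le_card hsub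
    omega

end vertex

end Pool.Agent.FNS
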